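import Pool.Agent.Helper98.BT.Orb
import Pool.Agent.Helper27.BT.Cyl
import Pool.Agent.Helper17.BT.RunL

/-!
# BT, piece G2: the inputs of one type
-/

set_option autoImplicit false
set_option linter.unusedSectionVars false

namespace Pool.Agent.Helper98.BT

open Finset Pool.Agent.Helper19.NF Pool.Agent.Helper74.NW Pool.Agent.Helper96.BT
open Pool.Agent.Helper74.NE (fine fine_apply)
open Pool.Agent.Helper99.NQ (pos)
open Pool.Agent.Helper96.PH (Det CB opn)
open Pool.Agent.Helper17.BT (runL_unique runL_congr)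
open Pool.Agent.Helper27.BT (cyl_bound)

section sub

variable {α : Type}

open Classical in
/-- A subset with `h` elements, if there is one. -/
noncomputable def subs (h : ℕ) (X : Finset α) : Finset α :=
  if hh : ∃ Y ⊆ X, Y.card = h then hh.choose else ∅

theorem subs_subset (h : ℕ) (X : Finset α) : subs h X ⊆ X := by
  classical
  unfold subs
  split_ifs with hh
  · exact hh.choose_spec.1
  · exact empty_subset _

theorem card_subs {h : ℕ} {X : Finset α} (hX : h ≤ X.card) : (subs h X).card = h := by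
  classical
  have hh : ∃ Y ⊆ X, Y.card = h := by
    obtain ⟨Y, h1, h2⟩ := exists_subset_card_eq hX
    exact ⟨Y, h1, h2⟩
  unfold subs
  rw [dif_pos hh]
  exact hh.choose_spec.2

end sub

variable {n D m S : ℕ} [NeZero m] {F B W G Z : Type} [Field F] [Fintype F] [AddCommGroup B] [AddCommGroup W]
  [Module F W] [Fintype W] [Fintype B]

section miss

variable {enc : W →+ (Fin D × Fin m → B)}

theorem miss_some {g : Fin D → Equiv.Perm (Fin n)} {x0 : Fin n × Fin m → B} {h i : ℕ} {I : B × W → F}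
    {V : Finset (B × W)} {v : Fin n} {c : Fin D × Fin m} (hc : miss enc g x0 h i I V v = some c) :
    h ≤ gap V (val (fine g) x0 (tab enc I) i (g c.1 v, c.2)) := by
  classical
  unfold miss at hc
  split_ifs at hc with hh
  · rw [Option.some_inj] at hc
    rw [← hc]
    exact hh.choose_spec

theorem miss_congr {g : Fin D → Equiv.Perm (Fin n)} {x0 : Fin n × Fin m → B} {h i : ℕ} {I I' : B × W → F}
    (hI : ∀ u, val (fine g) x0 (tab enc I') i u = val (fine g) x0 (tab enc I) i u)
    (V : Finset (B × W)) (v : Fin n) : miss enc g x0 h i I' V v = miss enc g x0 h i I V v := by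
  classical
  unfold miss
  have h1 : (fun c : Fin D × Fin m => h ≤ gap V (val (fine g) x0 (tab enc I') i (g c.1 v, c.2))) =
      (fun c : Fin D × Fin m => h ≤ gap V (val (fine g) x0 (tab enc I) i (g c.1 v, c.2))) := by
    funext c
    rw [hI]
  simp only [h1]

end miss

variable (enc : W →+ (Fin D × Fin m → B))

open Classical in
theorem type_bound_of [AddCommGroup G] [Fintype G] {m1 : ℕ} (P : NProg (B × W) F Z S) (hP : Det P) (hD : 0 < D)
    (g : Fin D → Equiv.Perm (Fin n)) (x0 : Fin n × Fin m → B) {h T R w : ℕ}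
    (γ : B → G) (L : Fin (w + 1) → List (Fin S × ℕ × Fin S)) (Φ : Fin (w + 1) → List (B × W) → Prop)
    (τ : Fin (w + 1) → Fin n → Option (Fin D × Fin m)) (a : G)
    {δ : ℝ} (hδ : 0 ≤ δ)
    (hcyl : ∀ (hh : Fin (w + 1) → Fin n → Fin D × Fin m) (t0 : Fin n × Fin m → B)
      (E : Fin (w + 1) → Finset (Ch n m F W))
      (U : Fin (w + 1) → Ch n m F W → Fin n → Finset W),
      (∀ j, ∀ x ∈ E j, ∀ u ∈ opn τ, (U j x u).card = h) →
      (∀ j, ∀ x ∈ E j, ∀ x', (∀ p l, x' p l ≠ x p l → ∃ u ∈ opn τ, pos g (hh j) u = p ∧ l ∈ U j x u) →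
        x' ∈ E j ∧ ∀ u ∈ opn τ, U j x' u = U j x u) →
      ((univ.filter (fun x : Ch n m F W => (∀ j, x ∈ E j) ∧
          ∑ v ∈ univ.filter (fun v : Fin n × Fin m => v.2.val < m1), γ (t0 v + lam enc g x v) = a)).card : ℝ) ≤
        (univ.filter (fun x : Ch n m F W => ∀ j, x ∈ E j)).card / Fintype.card G + δ * Nat.card (Ch n m F W)) :
    (Nat.card {I : B × W → F // CF (fine g) x0 R (tab enc I) ∧ (∀ j, InS P enc g x0 h T R (L j) (Φ j) (τ j) I) ∧
        gout enc g x0 m1 R γ I = a} : ℝ) ≤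
      Nat.card {I : B × W → F // CF (fine g) x0 R (tab enc I) ∧ ∀ j, InS P enc g x0 h T R (L j) (Φ j) (τ j) I} /
          Fintype.card G +
        δ * Nat.card (B × W → F) := by
  refine average2 enc g x0 R (fun I => CF (fine g) x0 R (tab enc I) ∧
      (∀ j, InS P enc g x0 h T R (L j) (Φ j) (τ j) I) ∧ gout enc g x0 m1 R γ I = a)
    (fun I => CF (fine g) x0 R (tab enc I) ∧ ∀ j, InS P enc g x0 h T R (L j) (Φ j) (τ j) I) (fun I hI => hI.1)
    (fun I hI => hI.1) _ δ hδ ?_
  intro I hcf
  set cell : Fin n × Fin m → B := val (fine g) x0 (tab enc I) R with hcell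
  let Win : Fin (w + 1) → Ch n m F W → List (B × W) → Prop := fun j x c =>
    RunL P (act enc g x0 R I x) (L j) c ∧ Φ j c ∧ Fintype.card (B × W) ≤ (free c).card + T ∧
      ∀ v, miss enc g x0 h R (act enc g x0 R I x) (free c) v = τ j v
  let E : Fin (w + 1) → Finset (Ch n m F W) := fun j => univ.filter (fun x => ∃ c, Win j x c)
  have hmem : ∀ j x, x ∈ E j ↔ ∃ c, Win j x c := fun j x => by
    show x ∈ univ.filter (fun x => ∃ c, Win j x c) ↔ _
    rw [mem_filter]
    exact and_iff_right (mem_univ _)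
  have hInT : ∀ x, (∀ j, InS P enc g x0 h T R (L j) (Φ j) (τ j) (act enc g x0 R I x)) ↔ ∀ j, x ∈ E j := fun x =>
    forall_congr' fun j => (hmem j x).symm
  have hw : ∀ (j : Fin (w + 1)) (x : Ch n m F W), ∃ c : List (B × W), x ∈ E j → Win j x c := by
    intro j x
    by_cases hx : x ∈ E j
    · obtain ⟨c, hc⟩ := (hmem j x).1 hx
      exact ⟨c, fun _ => hc⟩
    · exact ⟨[], fun h => absurd h hx⟩
  choose c hc using hw
  let hh : Fin (w + 1) → Fin n → Fin D × Fin m := fun j v => (τ j v).getD (⟨0, hD⟩, 0)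
  let U : Fin (w + 1) → Ch n m F W → Fin n → Finset W := fun j x u =>
    subs h (left cell (free (c j x)) (pos g (hh j) u))
  have key := hcyl hh (val (fine g) x0 (tab enc I) (R + 1)) E U ?_ ?_
  · have e1 : Nat.card {x : Ch n m F W // CF (fine g) x0 R (tab enc (act enc g x0 R I x)) ∧
        (∀ j, InS P enc g x0 h T R (L j) (Φ j) (τ j) (act enc g x0 R I x)) ∧
          gout enc g x0 m1 R γ (act enc g x0 R I x) = a} =
        (univ.filter (fun x : Ch n m F W => (∀ j, x ∈ E j) ∧
          ∑ v ∈ univ.filter (fun v : Fin n × Fin m => v.2.val < m1),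
            γ (val (fine g) x0 (tab enc I) (R + 1) v + lam enc g x v) = a)).card := by
      rw [Nat.card_eq_fintype_card, Fintype.card_subtype]
      congr 1
      ext x
      rw [mem_filter, mem_filter, hInT]
      have h1 : gout enc g x0 m1 R γ (act enc g x0 R I x) =
          ∑ v ∈ univ.filter (fun v : Fin n × Fin m => v.2.val < m1),
            γ (val (fine g) x0 (tab enc I) (R + 1) v + lam enc g x v) := by
        unfold gout
        exact sum_congr rfl fun v _ => by rw [val_act_succ hcf]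
      rw [h1]
      exact ⟨fun h2 => ⟨h2.1, h2.2.2⟩, fun h2 => ⟨h2.1, cf_act hcf _, h2.2⟩⟩
    have e2 : Nat.card {x : Ch n m F W // CF (fine g) x0 R (tab enc (act enc g x0 R I x)) ∧
        ∀ j, InS P enc g x0 h T R (L j) (Φ j) (τ j) (act enc g x0 R I x)} =
        (univ.filter (fun x : Ch n m F W => ∀ j, x ∈ E j)).card := by
      rw [Nat.card_eq_fintype_card, Fintype.card_subtype]
      congr 1
      ext x
      rw [mem_filter, mem_filter, hInT]
      exact ⟨fun h2 => ⟨h2.1, h2.2.2⟩, fun h2 => ⟨h2.1, cf_act hcf _, h2.2⟩⟩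
    rw [e1, e2]
    exact key
  · intro j x hx u hu
    refine card_subs ?_
    obtain ⟨-, -, -, h3⟩ := hc j x hx
    have h4 : (τ j u).isSome := (mem_filter.1 hu).2 j
    obtain ⟨cc, hcc⟩ := Option.isSome_iff_exists.1 h4
    have h5 := miss_some ((h3 u).trans hcc)
    rw [val_act hcf _ le_rfl] at h5
    have h6 : pos g (hh j) u = (g cc.1 u, cc.2) := by
      show (g ((τ j u).getD (⟨0, hD⟩, 0)).1 u, ((τ j u).getD (⟨0, hD⟩, 0)).2) = _
      rw [hcc]
      rfl
    rw [h6]
    exact h5
  · intro j x hx x' hx'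
    obtain ⟨h1, h2, h2', h3⟩ := hc j x hx
    have hr : RunL P (act enc g x0 R I x') (L j) (c j x) := by
      refine runL_congr h1 fun z hz => act_congr hcf _ _ z fun q hq => ?_
      by_contra hne
      obtain ⟨u, -, h4, h5⟩ := hx' q z.2 hne
      have h6 := subs_subset _ _ h5
      unfold left at h6
      rw [mem_filter] at h6
      have h7 := h6.2
      rw [h4, hcell, hq, mem_free] at h7
      exact h7 hz
    have hW : Win j x' (c j x) := by
      refine ⟨hr, h2, h2', fun v => ?_⟩
      rw [← h3 v]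
      exact miss_congr (fun u => by rw [val_act hcf _ le_rfl, val_act hcf _ le_rfl]) _ v
    have hE' : x' ∈ E j := (hmem j x').2 ⟨_, hW⟩
    have hc' : c j x' = c j x := runL_unique hP (hc j x' hE').1 hr
    refine ⟨hE', fun u _ => ?_⟩
    show subs h (left cell (free (c j x')) (pos g (hh j) u)) = _
    rw [hc']

/-- G2. -/
theorem type_bound [AddCommGroup G] [Fintype G] {m1 : ℕ} (hE : Mds enc (D * m1)) (hm1 : m1 ≤ m)
    (P : NProg (B × W) F Z S) (hP : Det P) (hD : 0 < D)
    (g : Fin D → Equiv.Perm (Fin n)) (x0 : Fin n × Fin m → B) {h T R w : ℕ} (h0 : 0 < h)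
    (hhL : h ≤ Fintype.card W) {E : ℝ} (hE0 : 0 ≤ E)
    (γ : B → G) (L : Fin (w + 1) → List (Fin S × ℕ × Fin S)) (Φ : Fin (w + 1) → List (B × W) → Prop)
    (τ : Fin (w + 1) → Fin n → Option (Fin D × Fin m))
    (hCB : CB γ (Fin (opn τ).card × Fin m1) (2 * w + 1) E) (a : G) :
    (Nat.card {I : B × W → F // CF (fine g) x0 R (tab enc I) ∧ (∀ j, InS P enc g x0 h T R (L j) (Φ j) (τ j) I) ∧
        gout enc g x0 m1 R γ I = a} : ℝ) ≤
      Nat.card {I : B × W → F // CF (fine g) x0 R (tab enc I) ∧ ∀ j, InS P enc g x0 h T R (L j) (Φ j) (τ j) I} /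
          Fintype.card G +
        E * (1 / ((h : ℝ) / Fintype.card W)) ^ (2 * (w + 1) * n) * Nat.card (B × W → F) := by
  classical
  have hW : (0 : ℝ) < Fintype.card W := Nat.cast_pos.2 (h0.trans_le hhL)
  have h0' : (0 : ℝ) < h := Nat.cast_pos.2 h0
  have hr : 1 ≤ 1 / ((h : ℝ) / Fintype.card W) := by
    rw [one_div_div, le_div_iff₀ h0', one_mul]
    exact_mod_cast hhL
  refine type_bound_of enc P hP hD g x0 γ L Φ τ a (by positivity) ?_
  intro hh t0 E' U hU cl
  refine (cyl_bound enc hE hm1 g hh t0 (opn τ) h h0 E' U hU cl γ hE0 hCB a).trans ?_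
  refine add_le_add le_rfl (mul_le_mul_of_nonneg_right ?_ (Nat.cast_nonneg _))
  refine mul_le_mul_of_nonneg_left ?_ hE0
  refine pow_le_pow_right₀ hr (Nat.mul_le_mul_left _ ?_)
  exact (card_le_univ _).trans (le_of_eq (Fintype.card_fin n))

end Pool.Agent.Helper98.BT
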